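import Pool.Agent.H84.SM.Targets

/-!
# (EME) the sections form a vector space
-/

set_option autoImplicit false

namespace Pool.Agent.H60.SM

open MvPolynomial SC Pool.Agent.H27.LV Pool.Agent.H84.SM

variable {k : Type} [Field k]

theorem gA_eq (G : MvPolynomial (Fin 3) k) : gA G = rename Sum.inl G := by
  have h : (aeval (xa (k := k)) : MvPolynomial (Fin 3) k →ₐ[k] A2 k) = rename Sum.inl := by
    refine MvPolynomial.algHom_ext fun i => ?_
    rw [aeval_X, rename_X]
    rfl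
  unfold gA
  rw [h]

theorem gA_ne {G : MvPolynomial (Fin 3) k} (hG : G ≠ 0) : gA G ≠ 0 := by
  rw [gA_eq]
  intro h
  exact hG (rename_injective _ Sum.inl_injective (h.trans (map_zero _).symm))

theorem gF_ne {G : MvPolynomial (Fin 3) k} (hG : G ≠ 0) : gF G ≠ 0 := by
  intro h
  exact gA_ne hG ((IsFractionRing.injective (A2 k) (F2 k)) (h.trans (map_zero _).symm))

theorem dv_gA (G : MvPolynomial (Fin 3) k) : dv (gA G) = 0 := by
  induction G using MvPolynomial.induction_on with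
  | C a =>
    have : gA (C a : MvPolynomial (Fin 3) k) = algebraMap k (A2 k) a := by
      unfold gA
      rw [aeval_C]
    rw [this, Derivation.map_algebraMap]
  | add p q hp hq =>
    have : gA (p + q) = gA p + gA q := map_add _ _ _
    rw [this, map_add, hp, hq, add_zero]
  | mul_X p i hp =>
    have : gA (p * X i) = gA p * X (Sum.inl i) := by
      unfold gA
      rw [map_mul, aeval_X]
      rfl
    rw [this, Derivation.leibniz, hp, smul_zero, add_zero]
    have h2 : dv (X (Sum.inl i) : A2 k) = 0 := by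
      unfold dv
      rw [mkDerivation_X]
      rfl
    rw [h2, smul_zero]

theorem wh_gA {G : MvPolynomial (Fin 3) k} {d : ℕ} (hG : G.IsHomogeneous d) (w : Fin 3 ⊕ Fin 3 → ℕ)
    (c : ℕ) (hw : ∀ i, w (Sum.inl i) = c) : IsWeightedHomogeneous w (gA G) (c * d) := by
  unfold gA
  rw [aeval_def, eval₂_eq']
  refine IsWeightedHomogeneous.sum _ _ _ fun m hm => ?_
  have h1 : (∑ i, m i) = d := by
    have h := hG (mem_support_iff.1 hm)
    rw [← h, Finsupp.weight_apply, Finsupp.sum_fintype _ _ (by intro i; simp)]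
    simp
  have h2 : IsWeightedHomogeneous w (∏ i : Fin 3, (xa i : A2 k) ^ m i) (∑ i, m i • c) := by
    refine IsWeightedHomogeneous.prod _ _ _ fun i _ => ?_
    have := (isWeightedHomogeneous_X k w (Sum.inl i)).pow (m i)
    rw [hw i] at this
    exact this
  have h3 : (∑ i, m i • c) = c * d := by
    rw [← h1, Finset.mul_sum]
    refine Finset.sum_congr rfl fun i _ => ?_
    rw [smul_eq_mul, mul_comm]
  rw [h3] at h2
  rw [algebraMap_eq]
  exact h2.C_mul _

theorem bh_add {e i : ℕ} {a b : A2 k} (ha : BH e i a) (hb : BH e i b) : BH e i (a + b) :=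
  ⟨ha.1.add hb.1, ha.2.add hb.2⟩

theorem bh_mul {e i e' i' : ℕ} {a b : A2 k} (ha : BH e i a) (hb : BH e' i' b) :
    BH (e + e') (i + i') (a * b) := ⟨ha.1.mul hb.1, ha.2.mul hb.2⟩

theorem bh_gA {G : MvPolynomial (Fin 3) k} {d : ℕ} (hG : G.IsHomogeneous d) (j : ℕ) :
    BH (d * j) 0 (gA G ^ j) := by
  have h1 := (wh_gA hG wx 1 fun i => rfl).pow j
  have h2 := (wh_gA hG wy 0 fun i => rfl).pow j
  refine ⟨?_, ?_⟩
  · have e1 : j • (1 * d) = d * j := by rw [smul_eq_mul]; ring
    rw [← e1]; exact h1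
  · have e1 : j • (0 * d) = 0 := by rw [smul_eq_mul]; ring
    rw [← e1]; exact h2

theorem bhn_add {e n : ℕ} {N N' : R2 k} (h : BHN e n N) (h' : BHN e n N') :
    BHN e n (N + N') := by
  intro j
  rw [Polynomial.coeff_add]
  refine ⟨fun hj => bh_add ((h j).1 hj) ((h' j).1 hj), fun hj => ?_⟩
  rw [(h j).2 hj, (h' j).2 hj, add_zero]

theorem coeff_gR (G : MvPolynomial (Fin 3) k) (j i : ℕ) (N : R2 k) :
    (gR G ^ j * N).coeff i = gA G ^ j * N.coeff i := by
  unfold gR
  rw [← Polynomial.C_pow, Polynomial.coeff_C_mul]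

theorem bhn_gR {G : MvPolynomial (Fin 3) k} {d : ℕ} (hG : G.IsHomogeneous d) (j : ℕ) {e n : ℕ}
    {N : R2 k} (h : BHN e n N) : BHN (e + d * j) n (gR G ^ j * N) := by
  intro i
  rw [coeff_gR]
  refine ⟨fun hi => ?_, fun hi => ?_⟩
  · have := bh_mul (bh_gA hG j) ((h i).1 hi)
    rw [zero_add, add_comm] at this
    exact this
  · rw [(h i).2 hi, mul_zero]

theorem inv_add {N N' : R2 k} (h : Inv N) (h' : Inv N') : Inv (N + N') := by
  intro j
  rw [Polynomial.coeff_add, map_add, h j, h' j, add_zero]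

theorem dv_pow_gA (G : MvPolynomial (Fin 3) k) (j : ℕ) : dv (gA G ^ j) = 0 := by
  rw [Derivation.leibniz_pow, dv_gA, smul_zero, smul_zero]

theorem inv_gR (G : MvPolynomial (Fin 3) k) (j : ℕ) {N : R2 k} (h : Inv N) :
    Inv (gR G ^ j * N) := by
  intro i
  rw [coeff_gR, Derivation.leibniz, h i, dv_pow_gA, smul_zero, smul_zero, add_zero]

theorem bhn_C {e n : ℕ} {N : R2 k} (h : BHN e n N) (c : k) :
    BHN e n (Polynomial.C (C c) * N) := by
  intro j
  rw [Polynomial.coeff_C_mul]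
  refine ⟨fun hj => ⟨((h j).1 hj).1.C_mul c, ((h j).1 hj).2.C_mul c⟩, fun hj => ?_⟩
  rw [(h j).2 hj, mul_zero]

theorem inv_C {N : R2 k} (h : Inv N) (c : k) : Inv (Polynomial.C (C c) * N) := by
  intro j
  rw [Polynomial.coeff_C_mul, ← algebraMap_eq, ← Algebra.smul_def, Derivation.map_smul, h j,
    smul_zero]

theorem sec_add (G : MvPolynomial (Fin 3) k) (M : ℕ) (N N' : R2 k) :
    sec G M (N + N') = sec G M N + sec G M N' := by
  unfold sec
  rw [Polynomial.map_add, mul_add]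

theorem sec_C (G : MvPolynomial (Fin 3) k) (M : ℕ) (c : k) (N : R2 k) :
    sec G M (Polynomial.C (C c) * N) = c • sec G M N := by
  unfold sec
  rw [Polynomial.map_mul, Polynomial.map_C, Algebra.smul_def]
  have h1 : algebraMap k (Polynomial (F2 k)) c =
      Polynomial.C (algebraMap (A2 k) (F2 k) (C c)) := by
    rw [Polynomial.algebraMap_apply, IsScalarTower.algebraMap_apply k (A2 k) (F2 k), algebraMap_eq]
  rw [h1]
  ring

theorem sec_gR {G : MvPolynomial (Fin 3) k} (hG : G ≠ 0) (M j : ℕ) (N : R2 k) :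
    sec G (M + j) (gR G ^ j * N) = sec G M N := by
  unfold sec
  rw [Polynomial.map_mul]
  unfold gR
  rw [← Polynomial.C_pow, Polynomial.map_C, ← mul_assoc, ← Polynomial.C_mul]
  congr 2
  have h := gF_ne hG
  rw [map_pow]
  change (gF G ^ (M + j))⁻¹ * gF G ^ j = _
  rw [pow_add]
  field_simp

theorem isSec_gR {G : MvPolynomial (Fin 3) k} {d : ℕ} (hPSG : T_PSG) (hG : G.IsHomogeneous d)
    {n M : ℕ} {τ : ℤ} {N : R2 k} (j : ℕ) (h : IsSec G d n τ M N) :
    IsSec G d n τ (M + j) (gR G ^ j * N) := by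
  obtain ⟨h1, ⟨e, he, h2⟩, h3⟩ := h
  refine ⟨inv_gR G j h1, ⟨e + d * j, ?_, bhn_gR hG j h2⟩, fun l => ?_⟩
  · push_cast
    rw [he]
    ring
  · rw [map_mul, map_pow, (hPSG k G d l).1, add_comm M j, pow_add]
    exact mul_dvd_mul_left _ (h3 l)

theorem isSec_add {G : MvPolynomial (Fin 3) k} {d n M : ℕ} {τ : ℤ} {N N' : R2 k}
    (h : IsSec G d n τ M N) (h' : IsSec G d n τ M N') : IsSec G d n τ M (N + N') := by
  obtain ⟨h1, ⟨e, he, h2⟩, h3⟩ := h
  obtain ⟨h1', ⟨e', he', h2'⟩, h3'⟩ := h'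
  have hee : e' = e := by exact_mod_cast he'.trans he.symm
  subst hee
  refine ⟨inv_add h1 h1', ⟨e', he, bhn_add h2 h2'⟩, fun l => ?_⟩
  rw [map_add]
  exact dvd_add (h3 l) (h3' l)

theorem pf_EME (hPSG : T_PSG) : T_EME := by
  intro k _ _ _ G d hd hG hG0 n τ Q
  constructor
  · intro hQ
    unfold E at hQ
    induction hQ using Submodule.span_induction with
    | mem Q hQ => exact hQ
    | zero =>
      refine ⟨n + τ.natAbs, 0, ⟨?_, ⟨(τ - n + d * ((n + τ.natAbs : ℕ) : ℤ)).toNat, ?_, ?_⟩, ?_⟩, ?_⟩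
      · intro j
        rw [Polynomial.coeff_zero, map_zero]
      · rw [Int.toNat_of_nonneg]
        have h1 : (1 : ℤ) ≤ d := by exact_mod_cast hd
        have h2 : ((n + τ.natAbs : ℕ) : ℤ) ≤ d * ((n + τ.natAbs : ℕ) : ℤ) := by
          have h3 : (0 : ℤ) ≤ ((n + τ.natAbs : ℕ) : ℤ) := by positivity
          nlinarith
        push_cast at h2 ⊢
        have h4 : -|τ| ≤ τ := neg_abs_le τ
        linarith
      · intro j
        rw [Polynomial.coeff_zero]
        exact ⟨fun _ => ⟨isWeightedHomogeneous_zero _ _ _, isWeightedHomogeneous_zero _ _ _⟩,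
          fun _ => rfl⟩
      · intro l
        rw [map_zero]
        exact dvd_zero _
      · unfold sec
        rw [Polynomial.map_zero, mul_zero]
    | add Q Q' _ _ h h' =>
      obtain ⟨M, N, hN, rfl⟩ := h
      obtain ⟨M', N', hN', rfl⟩ := h'
      have h1 := isSec_gR hPSG hG M' hN
      have h2 := isSec_gR hPSG hG M hN'
      rw [add_comm M' M] at h2
      refine ⟨M + M', gR G ^ M' * N + gR G ^ M * N', isSec_add h1 h2, ?_⟩
      rw [sec_add, sec_gR hG0]
      congr 1
      rw [add_comm M M', sec_gR hG0]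
    | smul c Q _ h =>
      obtain ⟨M, N, ⟨h1, ⟨e, he, h2⟩, h3⟩, rfl⟩ := h
      refine ⟨M, Polynomial.C (C c) * N, ⟨inv_C h1 c, ⟨e, he, bhn_C h2 c⟩, fun l => ?_⟩,
        (sec_C G M c N).symm⟩
      rw [map_mul]
      exact dvd_mul_of_dvd_right (h3 l) _
  · rintro ⟨M, N, h, rfl⟩
    exact Submodule.subset_span ⟨M, N, h, rfl⟩

end Pool.Agent.H60.SM
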