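import Pool.Agent.H60.SM.HOM
import Pool.Agent.H60.SM.EME

/-!
# (BDM) dimension of the space of leading coefficients
-/

set_option autoImplicit false

namespace Pool.Agent.H60.SM

open MvPolynomial SC Pool.Agent.H27.LV Pool.Agent.H84.SM

theorem weight_wx (m : Fin 3 ⊕ Fin 3 →₀ ℕ) : Finsupp.weight wx m = ∑ i, m (Sum.inl i) := by
  rw [Finsupp.weight_apply, Finsupp.sum_fintype _ _ (by intro i; simp), Fintype.sum_sum_type]
  simp [wx]

theorem weight_wy (m : Fin 3 ⊕ Fin 3 →₀ ℕ) : Finsupp.weight wy m = ∑ i, m (Sum.inr i) := by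
  rw [Finsupp.weight_apply, Finsupp.sum_fintype _ _ (by intro i; simp), Fintype.sum_sum_type]
  simp [wy]

/-- the exponents of bidegree `(e, i)` -/
def bset (e i : ℕ) : Set (Fin 3 ⊕ Fin 3 →₀ ℕ) :=
  {m | Finsupp.weight wx m = e ∧ Finsupp.weight wy m = i}

/-- the exponents of bidegree `(e, i)` are pairs of exponents -/
noncomputable def bsetE (e i : ℕ) : bset e i ≃
    {f : Fin 3 →₀ ℕ // f ∈ (Finset.univ : Finset (Fin 3)).finsuppAntidiag e} ×
    {f : Fin 3 →₀ ℕ // f ∈ (Finset.univ : Finset (Fin 3)).finsuppAntidiag i} :=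
  (Finsupp.sumFinsuppEquivProdFinsupp.subtypeEquiv (p := fun m => m ∈ bset e i)
    (q := fun c => c.1 ∈ (Finset.univ : Finset (Fin 3)).finsuppAntidiag e ∧
      c.2 ∈ (Finset.univ : Finset (Fin 3)).finsuppAntidiag i) (fun m => by
        unfold bset
        rw [Set.mem_setOf_eq, weight_wx, weight_wy, Finset.mem_finsuppAntidiag,
          Finset.mem_finsuppAntidiag]
        simp)).trans (Equiv.subtypeProdEquivProd)

theorem card_anti (e : ℕ) :
    ((Finset.univ : Finset (Fin 3)).finsuppAntidiag e).card = (e + 2).choose 2 := by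
  rw [Finset.card_finsuppAntidiag_nat_eq_choose, Finset.card_univ, Fintype.card_fin]
  have h : 3 + e - 1 = e + 2 := by omega
  rw [h, Nat.choose_symm_add]

theorem card_bset (e i : ℕ) : Nat.card (bset e i) = (e + 2).choose 2 * (i + 2).choose 2 := by
  rw [Nat.card_congr (bsetE e i), Nat.card_prod, Nat.card_eq_fintype_card,
    Nat.card_eq_fintype_card, Fintype.card_coe, Fintype.card_coe, card_anti, card_anti]

instance (e i : ℕ) : Finite (bset e i) := Finite.of_equiv _ (bsetE e i).symm

variable {k : Type} [Field k]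

theorem bh_iff (e i : ℕ) (b : A2 k) : BH e i b ↔ b ∈ restrictSupport k (bset e i) := by
  rw [mem_restrictSupport_iff]
  constructor
  · intro h m hm
    have hm' := mem_support_iff.1 hm
    exact ⟨h.1 hm', h.2 hm'⟩
  · intro h
    exact ⟨fun m hm => (h (mem_support_iff.2 hm)).1, fun m hm => (h (mem_support_iff.2 hm)).2⟩

instance (e i : ℕ) : Module.Finite k (restrictSupport k (bset e i)) :=
  Module.Finite.of_basis (basisRestrictSupport k (bset e i))

theorem finrank_V (e i : ℕ) : Module.finrank k (restrictSupport k (bset e i)) =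
    (e + 2).choose 2 * (i + 2).choose 2 := by
  rw [Module.finrank_eq_nat_card_basis (basisRestrictSupport k (bset e i)), card_bset]

theorem bh_fA {G : MvPolynomial (Fin 3) k} {d : ℕ} (hG : G.IsHomogeneous d) :
    BH (d - 1) 1 (fA G) := by
  unfold fA dp
  have h : ∀ i : Fin 3, BH (d - 1) 1 (gr G (xa (k := k)) i * ya i) := by
    intro i
    have h1 : G.pderiv i |>.IsHomogeneous (d - 1) := hG.pderiv
    have h2 := bh_gA h1 1
    have h3 : BH 0 1 (ya i : A2 k) := by
      refine ⟨?_, ?_⟩
      · exact isWeightedHomogeneous_X k wx (Sum.inr i)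
      · exact isWeightedHomogeneous_X k wy (Sum.inr i)
    have h4 := bh_mul h2 h3
    rw [pow_one, mul_one, add_zero, zero_add] at h4
    exact h4
  exact ⟨IsWeightedHomogeneous.sum _ _ _ fun i _ => (h i).1,
    IsWeightedHomogeneous.sum _ _ _ fun i _ => (h i).2⟩

theorem bh_cofactor {e1 i1 e i : ℕ} {f h : A2 k} (hf : f ≠ 0) (hh : h ≠ 0) (h1 : BH e1 i1 f)
    (h2 : BH e i (f * h)) : e1 ≤ e ∧ i1 ≤ i ∧ BH (e - e1) (i - i1) h := by
  have hne := mul_ne_zero hf hh
  obtain ⟨a, b, hab, ha, hb⟩ := wh_of_mul wx hne h2.1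
  obtain ⟨a', b', hab', ha', hb'⟩ := wh_of_mul wy hne h2.2
  have e2 := ha.inj_right hf h1.1
  have e3 := ha'.inj_right hf h1.2
  subst e2 e3
  refine ⟨by omega, by omega, ?_, ?_⟩
  · have : e - a = b := by omega
    rw [this]; exact hb
  · have : i - a' = b' := by omega
    rw [this]; exact hb'

theorem BS_eq (G : MvPolynomial (Fin 3) k) (d e i : ℕ) :
    BS G d (e : ℤ) i = (restrictSupport k (bset e i)).map (bm G d).toLinearMap := by
  unfold BS
  apply le_antisymm
  · rw [Submodule.span_le]
    rintro f ⟨e', b, he, hb, rfl⟩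
    have : e' = e := by exact_mod_cast he
    subst this
    exact ⟨b, (bh_iff _ _ _).1 hb, rfl⟩
  · rintro _ ⟨b, hb, rfl⟩
    exact Submodule.subset_span ⟨e, b, rfl, (bh_iff _ _ _).2 hb, rfl⟩

theorem ker_eq {G : MvPolynomial (Fin 3) k} {d e i : ℕ} (hf : fA G ≠ 0)
    (hBH : BH (d - 1) 1 (fA G)) (hker : ∀ b : A2 k, bm G d b = 0 ↔ fA G ∣ b) :
    Module.finrank k
      (restrictSupport k (bset e i) ⊓ LinearMap.ker (bm G d).toLinearMap : Submodule k (A2 k)) =
      if d - 1 ≤ e ∧ 1 ≤ i then (e - (d - 1) + 2).choose 2 * (i - 1 + 2).choose 2 else 0 := by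
  by_cases hc : d - 1 ≤ e ∧ 1 ≤ i
  · rw [if_pos hc, ← finrank_V (k := k)]
    have hinj : Function.Injective (LinearMap.mulLeft k (fA G)) := fun a b h => by
      have h' : fA G * a = fA G * b := h
      exact mul_left_cancel₀ hf h'
    have heq : (restrictSupport k (bset e i) ⊓ LinearMap.ker (bm G d).toLinearMap :
        Submodule k (A2 k)) =
        (restrictSupport k (bset (e - (d - 1)) (i - 1))).map (LinearMap.mulLeft k (fA G)) := by
      ext b
      rw [Submodule.mem_inf, LinearMap.mem_ker, Submodule.mem_map]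
      constructor
      · rintro ⟨h1, h2⟩
        obtain ⟨c, rfl⟩ := (hker b).1 h2
        refine ⟨c, ?_, rfl⟩
        rw [← bh_iff] at h1 ⊢
        by_cases hc0 : c = 0
        · subst hc0
          exact ⟨isWeightedHomogeneous_zero _ _ _, isWeightedHomogeneous_zero _ _ _⟩
        · exact (bh_cofactor hf hc0 hBH h1).2.2
      · rintro ⟨c, h1, rfl⟩
        rw [← bh_iff] at h1 ⊢
        refine ⟨?_, (hker _).2 (dvd_mul_right _ _)⟩
        have h2 := bh_mul hBH h1
        have e1 : d - 1 + (e - (d - 1)) = e := by omega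
        have e2 : 1 + (i - 1) = i := by omega
        rw [e1, e2] at h2
        exact h2
    rw [heq]
    exact (Submodule.equivMapOfInjective _ hinj _).symm.finrank_eq
  · rw [if_neg hc]
    have heq : (restrictSupport k (bset e i) ⊓ LinearMap.ker (bm G d).toLinearMap :
        Submodule k (A2 k)) = ⊥ := by
      rw [eq_bot_iff]
      rintro b ⟨h1, h2⟩
      obtain ⟨c, rfl⟩ := (hker b).1 h2
      by_cases hc0 : c = 0
      · subst hc0
        simp
      · have h3 := bh_cofactor hf hc0 hBH ((bh_iff _ _ _).2 h1)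
        exact absurd ⟨h3.1, h3.2.1⟩ hc
    rw [heq, finrank_bot]

theorem rank_null {V W : Type} [AddCommGroup V] [Module k V] [AddCommGroup W] [Module k W]
    (f : V →ₗ[k] W) (U : Submodule k V) [FiniteDimensional k U] :
    Module.finrank k ↥(U.map f) + Module.finrank k ↥(U ⊓ LinearMap.ker f) =
      Module.finrank k U := by
  have h := LinearMap.finrank_range_add_finrank_ker (f.domRestrict U)
  rw [LinearMap.range_domRestrict] at h
  have h2 : Module.finrank k ↥(LinearMap.ker (f.domRestrict U)) =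
      Module.finrank k ↥(U ⊓ LinearMap.ker f) := by
    have e : LinearMap.ker (f.domRestrict U) = (U ⊓ LinearMap.ker f).comap U.subtype := by
      ext x
      simp
    rw [e]
    exact (Submodule.comapSubtypeEquivOfLe (p := U ⊓ LinearMap.ker f) (q := U)
      inf_le_left).finrank_eq
  rw [h2] at h
  exact h

theorem pf_BDM (hBMF : T_BMF) (hRSB : T_RSB) : T_BDM := by
  intro k _ _ _ G d hd hS e i
  rcases lt_or_ge e 0 with he | he
  · have h0 : BS G d e i = ⊥ := by
      unfold BS
      rw [Submodule.span_eq_bot]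
      rintro f ⟨e', b, he', -, -⟩
      have : (0 : ℤ) ≤ (e' : ℤ) := Int.natCast_nonneg _
      omega
    rw [h0]
    refine ⟨inferInstance, ?_⟩
    rw [finrank_bot, bdim, if_pos he]
  · obtain ⟨e, rfl⟩ := Int.eq_ofNat_of_zero_le he
    have hf : fA G ≠ 0 := (hRSB k G d hd hS).1.ne_zero
    rw [BS_eq]
    refine ⟨inferInstance, ?_⟩
    have h1 := rank_null (bm G d).toLinearMap (restrictSupport k (bset e i))
    rw [ker_eq hf (bh_fA hS.1) (hBMF k G d hd hS).1, finrank_V] at h1
    rw [bdim, if_neg (by omega), Int.toNat_natCast]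
    split_ifs at h1 with hc
    · have e1 : e - (d - 1) + 2 = e + 3 - d := by omega
      have e2 : i - 1 + 2 = i + 1 := by omega
      rw [e1, e2] at h1
      omega
    · have h0 : (e + 3 - d).choose 2 * (i + 1).choose 2 = 0 := by
        rcases not_and_or.1 hc with h | h
        · rw [Nat.choose_eq_zero_of_lt (by omega), zero_mul]
        · have : i = 0 := by omega
          subst this
          rw [Nat.choose_eq_zero_of_lt (n := 0 + 1) (by omega), mul_zero]
      rw [h0]
      omega

end Pool.Agent.H60.SM
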