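import Pool.Agent.H84.SM.Targets

/-!
# (ELB) lower bound for the dimension of the space of sections, for large twist
-/

set_option autoImplicit false

namespace Pool.Agent.H60.SM

open MvPolynomial SC Pool.Agent.H27.LV Pool.Agent.H84.SM

variable {k : Type} [Field k]

/-- a coefficient, times a constant, as a linear map on the space of sections -/
noncomputable def elbPhi (V : Submodule k (Polynomial (F2 k))) (c : F2 k) (J : ℕ) :
    V →ₗ[k] F2 k :=
  ((LinearMap.mulRight k c).comp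
    ((Polynomial.lcoeff (F2 k) J).restrictScalars k)).comp V.subtype

theorem elbPhi_apply (V : Submodule k (Polynomial (F2 k))) (c : F2 k) (J : ℕ) (v : V) :
    elbPhi V c J v = (v : Polynomial (F2 k)).coeff J * c := rfl

theorem coeff_sec (G : MvPolynomial (Fin 3) k) (M : ℕ) (N : R2 k) (j : ℕ) :
    (sec G M N).coeff j = (gF G ^ M)⁻¹ * algebraMap (A2 k) (F2 k) (N.coeff j) := by
  unfold sec
  rw [Polynomial.coeff_C_mul, Polynomial.coeff_map]

theorem pf_ELB (hLEL : T_LEL) (hEME : T_EME) (hLBL : T_LBL) (hEUB : T_EUB) (hBDM : T_BDM) :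
    T_ELB := by
  intro k _ _ _ G d hd hS hI
  obtain ⟨e1, he1⟩ := hLBL k G d hd hS
  refine ⟨e1, fun n τ hτ => ?_⟩
  have hG0 : G ≠ 0 := hI.ne_zero
  have hfin := (hEUB k G d hd hS hI n τ).1
  have hL := hLEL k (E G d n τ) (F2 k) (n / 3 + 1)
    (fun i => elbPhi (E G d n τ) (gF G ^ (Fin.rev i : ℕ)) (Fin.rev i : ℕ))
    (fun i => BS G d (τ - n + d * ((Fin.rev i : ℕ) : ℤ)) (n - 3 * (Fin.rev i : ℕ))) hfin
    (fun i => (hBDM k G d hd hS _ _).1) (by
      intro i f hf
      have h3 : 3 * (Fin.rev i : ℕ) ≤ n := by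
        have := (Fin.rev i).2
        omega
      obtain ⟨M, N, hsec, hz, hf'⟩ := he1 n τ hτ (Fin.rev i : ℕ) h3 f hf
      refine ⟨⟨sec G M N, (hEME k G d (by omega) hS.1 hG0 n τ _).2 ⟨M, N, hsec, rfl⟩⟩,
        fun j hj => ?_, ?_⟩
      · rw [elbPhi_apply]
        have h4 : (Fin.rev i : ℕ) < (Fin.rev j : ℕ) := by
          have := Fin.rev_lt_rev.2 hj
          exact this
        rw [coeff_sec, hz _ h4, map_zero, mul_zero, zero_mul]
      · rw [elbPhi_apply]
        exact hf')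
  refine le_trans (le_of_eq ?_) hL
  rw [Finset.sum_congr rfl fun i _ => (hBDM k G d hd hS
    (τ - n + d * ((Fin.rev i : ℕ) : ℤ)) (n - 3 * (Fin.rev i : ℕ))).2]
  unfold ub
  rw [Finset.sum_range]
  exact (Equiv.sum_comp Fin.revPerm (fun i : Fin (n / 3 + 1) =>
    bdim d (τ - n + d * ((i : ℕ) : ℤ)) (n - 3 * (i : ℕ)))).symm

end Pool.Agent.H60.SM
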