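import Pool.Agent.H84.SM.Targets

/-!
# (HOM) factors of bihomogeneous elements are bihomogeneous
-/

set_option autoImplicit false

namespace Pool.Agent.H60.SM

open MvPolynomial SC Pool.Agent.H27.LV Pool.Agent.H84.SM

section Gr

variable {σ : Type} {R : Type} [CommRing R] (w : σ → ℕ)

/-- the coaction of the grading -/
noncomputable def coa : MvPolynomial σ R →ₐ[R] Polynomial (MvPolynomial σ R) :=
  aeval (fun i => Polynomial.C (X i) * Polynomial.X ^ w i)

theorem coa_monomial (d : σ →₀ ℕ) (r : R) :
    coa w (monomial d r) = Polynomial.monomial (Finsupp.weight w d) (monomial d r) := by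
  unfold coa
  rw [aeval_monomial, Finsupp.prod]
  rw [Finset.prod_congr rfl fun i _ => mul_pow (Polynomial.C (X i : MvPolynomial σ R))
    (Polynomial.X ^ w i) (d i), Finset.prod_mul_distrib]
  rw [Finset.prod_congr rfl fun i _ => (pow_mul (Polynomial.X : Polynomial (MvPolynomial σ R))
    (w i) (d i)).symm, Finset.prod_pow_eq_pow_sum]
  have h1 : (∑ i ∈ d.support, w i * d i) = Finsupp.weight w d := by
    rw [Finsupp.weight_apply, Finsupp.sum]
    refine Finset.sum_congr rfl fun i _ => ?_
    rw [smul_eq_mul, mul_comm]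
  rw [h1]
  have h2 : (∏ i ∈ d.support, (Polynomial.C (X i : MvPolynomial σ R)) ^ d i) =
      Polynomial.C (monomial d 1) := by
    rw [monomial_eq, C_1, one_mul, Finsupp.prod, map_prod]
    refine Finset.prod_congr rfl fun i _ => ?_
    rw [map_pow]
  rw [h2, Polynomial.algebraMap_apply, ← mul_assoc, ← map_mul]
  have h3 : (algebraMap R (MvPolynomial σ R)) r * monomial d 1 = monomial d r := by
    rw [algebraMap_eq, C_mul_monomial, mul_one]
  rw [h3, Polynomial.C_mul_X_pow_eq_monomial]

theorem coeff_coa (f : MvPolynomial σ R) (j : ℕ) :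
    (coa w f).coeff j = weightedHomogeneousComponent w j f := by
  classical
  induction f using MvPolynomial.induction_on' with
  | monomial d r =>
    rw [coa_monomial, Polynomial.coeff_monomial]
    ext e
    rw [coeff_weightedHomogeneousComponent]
    by_cases h : Finsupp.weight w d = j
    · rw [if_pos h, coeff_monomial]
      by_cases he : d = e
      · subst he; simp [h]
      · simp [he]
    · rw [if_neg h, coeff_zero, coeff_monomial]
      by_cases he : d = e
      · subst he; simp [h]
      · simp [he]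
  | add p q hp hq => rw [map_add, map_add, Polynomial.coeff_add, hp, hq]

theorem coa_ne_zero {f : MvPolynomial σ R} (hf : f ≠ 0) : coa w f ≠ 0 := by
  classical
  obtain ⟨d, hd⟩ := ne_zero_iff.1 hf
  intro h
  have h1 := coeff_coa w f (Finsupp.weight w d)
  rw [h, Polynomial.coeff_zero] at h1
  have h2 := congrArg (coeff d) h1
  rw [coeff_weightedHomogeneousComponent, if_pos rfl, coeff_zero] at h2
  exact hd h2.symm

theorem wh_of_mul [IsDomain R] {f g : MvPolynomial σ R} {n : ℕ} (hfg : f * g ≠ 0)
    (h : IsWeightedHomogeneous w (f * g) n) :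
    ∃ n1 n2, n1 + n2 = n ∧ IsWeightedHomogeneous w f n1 ∧ IsWeightedHomogeneous w g n2 := by
  classical
  have hf : f ≠ 0 := left_ne_zero_of_mul hfg
  have hg : g ≠ 0 := right_ne_zero_of_mul hfg
  have hcf := coa_ne_zero w hf
  have hcg := coa_ne_zero w hg
  have hmul : coa w f * coa w g = Polynomial.monomial n (f * g) := by
    rw [← map_mul]
    ext j
    rw [coeff_coa, Polynomial.coeff_monomial]
    by_cases hj : n = j
    · subst hj
      rw [if_pos rfl, h.weightedHomogeneousComponent_same]
    · rw [if_neg hj, h.weightedHomogeneousComponent_ne _ (Ne.symm hj)]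
  have hd : (coa w f).natDegree + (coa w g).natDegree = n := by
    rw [← Polynomial.natDegree_mul hcf hcg, hmul, Polynomial.natDegree_monomial_eq n hfg]
  have ht : (coa w f).natTrailingDegree + (coa w g).natTrailingDegree = n := by
    rw [← Polynomial.natTrailingDegree_mul hcf hcg, hmul,
      Polynomial.natTrailingDegree_monomial hfg]
  have hf1 := Polynomial.natTrailingDegree_le_natDegree (coa w f)
  have hg1 := Polynomial.natTrailingDegree_le_natDegree (coa w g)
  have key : ∀ f : MvPolynomial σ R, (coa w f).natTrailingDegree = (coa w f).natDegree →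
      IsWeightedHomogeneous w f (coa w f).natDegree := by
    intro f hft d hd
    have h1 := coeff_coa w f (Finsupp.weight w d)
    have h2 : (coa w f).coeff (Finsupp.weight w d) ≠ 0 := by
      intro h3
      rw [h3] at h1
      have h2 := congrArg (coeff d) h1
      rw [coeff_weightedHomogeneousComponent, if_pos rfl, coeff_zero] at h2
      exact hd h2.symm
    have h3 := Polynomial.le_natDegree_of_ne_zero h2
    have h4 := Polynomial.natTrailingDegree_le_of_ne_zero h2
    omega
  exact ⟨_, _, hd, key f (by omega), key g (by omega)⟩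

end Gr

variable {k : Type} [Field k]

/-- the weights of `x`, `w` -/
def wox : Option (Fin 3 ⊕ Fin 3) → ℕ := fun o => o.elim 0 wx

/-- the weights of `y`, `w` -/
def woy : Option (Fin 3 ⊕ Fin 3) → ℕ := fun o => o.elim 3 wy

theorem weight_opt (w : Fin 3 ⊕ Fin 3 → ℕ) (c : ℕ) (m : Option (Fin 3 ⊕ Fin 3) →₀ ℕ) :
    Finsupp.weight (fun o : Option (Fin 3 ⊕ Fin 3) => o.elim c w) m =
      m none * c + Finsupp.weight w m.some := by
  rw [Finsupp.weight_apply, Finsupp.weight_apply, Finsupp.sum_option_index_smul]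
  simp

theorem bhn_iff (e n : ℕ) (P : MvPolynomial (Option (Fin 3 ⊕ Fin 3)) k) :
    BHN e n (optionEquivLeft k (Fin 3 ⊕ Fin 3) P) ↔
      IsWeightedHomogeneous wox P e ∧ IsWeightedHomogeneous woy P n := by
  constructor
  · intro h
    have h1 : ∀ m : Option (Fin 3 ⊕ Fin 3) →₀ ℕ, coeff m P ≠ 0 →
        3 * m none ≤ n ∧ Finsupp.weight wx m.some = e ∧
          Finsupp.weight wy m.some = n - 3 * m none := by
      intro m hm
      rw [← optionEquivLeft_coeff_some_coeff_none] at hm
      obtain ⟨h1, h2⟩ := h (m none)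
      rcases le_or_gt (3 * m none) n with h3 | h3
      · exact ⟨h3, (h1 h3).1 hm, (h1 h3).2 hm⟩
      · rw [h2 h3, coeff_zero] at hm
        exact absurd rfl hm
    refine ⟨fun m hm => ?_, fun m hm => ?_⟩
    · obtain ⟨h3, h4, h5⟩ := h1 m hm
      unfold wox
      rw [weight_opt, h4]
      omega
    · obtain ⟨h3, h4, h5⟩ := h1 m hm
      unfold woy
      rw [weight_opt, h5]
      omega
  · rintro ⟨hx, hy⟩ j
    have h1 : ∀ m : (Fin 3 ⊕ Fin 3) →₀ ℕ,
        coeff m ((optionEquivLeft k (Fin 3 ⊕ Fin 3) P).coeff j) ≠ 0 →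
        Finsupp.weight wx m = e ∧ j * 3 + Finsupp.weight wy m = n := by
      intro m hm
      have h2 := optionEquivLeft_coeff_some_coeff_none k (Fin 3 ⊕ Fin 3) (m.optionElim j) P
      rw [Finsupp.some_optionElim, Finsupp.optionElim_apply_none] at h2
      rw [h2] at hm
      have h3 := hx hm
      have h4 := hy hm
      unfold wox at h3
      unfold woy at h4
      rw [weight_opt, Finsupp.some_optionElim, Finsupp.optionElim_apply_none] at h3 h4
      exact ⟨by omega, h4⟩
    refine ⟨fun _ => ⟨fun m hm => (h1 m hm).1, fun m hm => ?_⟩, fun hj => ?_⟩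
    · have := (h1 m hm).2
      omega
    · by_contra hne
      obtain ⟨m, hm⟩ := ne_zero_iff.1 hne
      have := (h1 m hm).2
      omega

theorem pf_HOM : T_HOM := by
  intro k _ e n N N' hne h
  set φ := optionEquivLeft k (Fin 3 ⊕ Fin 3)
  obtain ⟨P, rfl⟩ := φ.surjective N
  obtain ⟨P', rfl⟩ := φ.surjective N'
  rw [← map_mul] at h hne
  have hPP : P * P' ≠ 0 := by
    intro h0
    rw [h0, map_zero] at hne
    exact hne rfl
  obtain ⟨hx, hy⟩ := (bhn_iff e n (P * P')).1 h
  obtain ⟨e1, e2, he, hx1, hx2⟩ := wh_of_mul _ hPP hx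
  obtain ⟨n1, n2, hn, hy1, hy2⟩ := wh_of_mul _ hPP hy
  exact ⟨e1, n1, e2, n2, he, hn, (bhn_iff e1 n1 P).2 ⟨hx1, hy1⟩, (bhn_iff e2 n2 P').2 ⟨hx2, hy2⟩⟩

end Pool.Agent.H60.SM
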